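import Mathlib

set_option autoImplicit false

namespace Pool.Agent.H.MP_e6b6d5_an

open Set Filter Topology Function

def orbCl {X : Type} [TopologicalSpace X] (T : X → X) (x : X) : Set X :=
  closure (range fun n : ℕ => T^[n] x)

def IsMinimalOn {X : Type} [TopologicalSpace X] (T : X → X) (K : Set X) : Prop :=
  ∀ F ⊆ K, F.Nonempty → IsClosed F → MapsTo T F F → F = K

theorem disj {X Y : Type} [TopologicalSpace X] [TopologicalSpace Y] [CompactSpace Y]
    (T : X → X) (S : Y → Y) (hS : Continuous S) (hmin : IsMinimalOn S univ)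
    (hX : ∀ U : Set X, IsOpen U → U.Nonempty → ∀ N : ℕ, ∃ q ∈ U, ∃ p, N ≤ p ∧ p.Prime ∧ T^[p] q = q)
    (J : Set (X × Y)) (hJ : IsClosed J) (hinv : MapsTo (Prod.map T S) J J)
    (h1 : Prod.fst '' J = univ) : J = univ := by
  have hit : ∀ (n : ℕ) (x : X) (y : Y), (x, y) ∈ J → (T^[n] x, S^[n] y) ∈ J := by
    intro n
    induction n with
    | zero => intro x y h; exact h
    | succ n ih => intro x y h; exact ih _ _ (hinv h)
  by_contra hne
  obtain ⟨⟨x0, y0⟩, h0⟩ : Jᶜ.Nonempty := nonempty_compl.2 hne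
  obtain ⟨U, V, hU, hV, hx, hy, hUV⟩ := isOpen_prod_iff.1 hJ.isOpen_compl x0 y0 h0
  have hcov : univ ⊆ ⋃ n : ℕ, S^[n] ⁻¹' V := by
    by_contra hc
    have hne : (⋃ n : ℕ, S^[n] ⁻¹' V)ᶜ.Nonempty := by
      rw [nonempty_compl]
      intro h
      exact hc h.ge
    have := hmin _ (subset_univ _) hne
      (isOpen_iUnion fun n => hV.preimage (hS.iterate n)).isClosed_compl (fun y hy hc => by
        obtain ⟨n, hn⟩ := mem_iUnion.1 hc
        exact hy (mem_iUnion.2 ⟨n + 1, hn⟩))
    have h3 : y0 ∈ (⋃ n : ℕ, S^[n] ⁻¹' V)ᶜ := this ▸ mem_univ _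
    exact h3 (mem_iUnion.2 ⟨0, hy⟩)
  obtain ⟨t, ht⟩ := isCompact_univ.elim_finite_subcover _
    (fun n => hV.preimage (hS.iterate n)) hcov
  choose q hq p hp1 hp2 hp3 using hX U hU ⟨x0, hx⟩
  obtain ⟨a, aS⟩ : ∃ a : ℕ → ℕ, ∀ n, a (n + 1) = p (a n) + 1 :=
    ⟨fun n => Nat.rec 0 (fun _ b => p b + 1) n, fun _ => rfl⟩
  have hmono : StrictMono fun n => p (a n) := strictMono_nat_of_lt_succ fun n => by
    have := hp1 (a (n + 1))
    rw [aS] at this ⊢
    omega
  have hr : ∀ N, ∃ r < p N, (q N, S^[r] y0) ∈ J := by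
    intro N
    obtain ⟨⟨x, y⟩, hxy, hxq⟩ : q N ∈ Prod.fst '' J := h1 ▸ mem_univ _
    simp only at hxq
    rw [hxq] at hxy
    have hpos := (hp2 N).pos
    have hcl : IsClosed (⋃ r ∈ Finset.range (p N), {y : Y | (q N, S^[r] y) ∈ J}) :=
      isClosed_biUnion_finset fun r _ =>
        hJ.preimage (continuous_const.prodMk (hS.iterate r))
    have := hmin _ (subset_univ _) ⟨y, mem_iUnion₂.2 ⟨0, Finset.mem_range.2 hpos, hxy⟩⟩ hcl
      (fun z hz => by
        obtain ⟨r, hr, hz⟩ := mem_iUnion₂.1 hz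
        rw [Finset.mem_range] at hr
        cases r with
        | zero =>
          refine mem_iUnion₂.2 ⟨p N - 1, Finset.mem_range.2 (by omega), ?_⟩
          have h4 := hit (p N) _ _ hz
          rw [hp3] at h4
          show (q N, S^[p N - 1] (S z)) ∈ J
          rw [← iterate_succ_apply, Nat.succ_eq_add_one, Nat.sub_add_cancel hpos]
          exact h4
        | succ r => exact mem_iUnion₂.2 ⟨r, Finset.mem_range.2 (by omega), hz⟩)
    have h3 : y0 ∈ ⋃ r ∈ Finset.range (p N), {y : Y | (q N, S^[r] y) ∈ J} := this ▸ mem_univ _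
    obtain ⟨r, hr, hz⟩ := mem_iUnion₂.1 h3
    exact ⟨r, Finset.mem_range.1 hr, hz⟩
  choose r hr1 hr2 using hr
  have hr3 : ∀ N m, (q N, S^[r N + p N * m] y0) ∈ J := by
    intro N m
    induction m with
    | zero => simpa using hr2 N
    | succ m ih =>
      have h4 := hit (p N) _ _ ih
      rw [hp3, ← iterate_add_apply] at h4
      rwa [show r N + p N * (m + 1) = p N + (r N + p N * m) by ring]
  obtain ⟨k, hk⟩ := Nat.chineseRemainderOfFinset (fun i => r (a i) + (p (a i) - 1) * i)
    (fun i => p (a i)) t (fun i _ => (hp2 _).ne_zero)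
    (fun i _ j _ hij => (Nat.coprime_primes (hp2 _) (hp2 _)).2 fun h => hij (hmono.injective h))
  obtain ⟨i, hi, hv⟩ := mem_iUnion₂.1 (ht (mem_univ (S^[k] y0)))
  have e1 : i + k ≡ r (a i) + p (a i) * i [MOD p (a i)] := by
    have h5 := (hk i hi).add_left i
    have hpos := (hp2 (a i)).pos
    obtain ⟨w, hw⟩ : ∃ w, p (a i) = w + 1 := ⟨p (a i) - 1, by omega⟩
    simp only [hw, Nat.add_sub_cancel] at h5 ⊢
    rwa [show i + (r (a i) + w * i) = r (a i) + (w + 1) * i by ring] at h5
  have e2 : (i + k) % p (a i) = r (a i) := by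
    rw [e1, Nat.add_mul_mod_self_left, Nat.mod_eq_of_lt (hr1 _)]
  have e3 : i + k = r (a i) + p (a i) * ((i + k) / p (a i)) := by
    rw [← e2, Nat.mod_add_div]
  have h6 := hr3 (a i) ((i + k) / p (a i))
  rw [← e3, iterate_add_apply] at h6
  exact hUV (mk_mem_prod (hq (a i)) hv) h6

abbrev A := (ℕ → Bool) × (ℕ → Bool)

def sh (x : A) : A := (fun i => x.1 (i + 1), x.2)

theorem sh_iter (n : ℕ) (x : A) : sh^[n] x = (fun i => x.1 (i + n), x.2) := by
  induction n with
  | zero => rfl
  | succ n ih =>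
    rw [iterate_succ_apply', ih]
    simp only [sh, add_assoc, add_comm 1 n]

theorem sh_cont : Continuous sh := by
  unfold sh
  fun_prop

noncomputable def pr (n : ℕ) : ℕ := (Nat.exists_infinite_primes n).choose

theorem pr_spec (n : ℕ) : n ≤ pr n ∧ (pr n).Prime := (Nat.exists_infinite_primes n).choose_spec

noncomputable def ch (n : ℕ) (s : ℕ × (ℕ → Bool)) : ℕ × (ℕ → Bool) :=
  (pr ((n + 1) * (s.1 + 1)), fun i => if i % pr ((n + 1) * (s.1 + 1)) < (n + 1) * s.1
    then s.2 (i % pr ((n + 1) * (s.1 + 1))) else false)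

noncomputable def st (c : ℕ → Bool) : ℕ → ℕ × (ℕ → Bool)
  | 0 => (1, fun _ => true)
  | n + 1 => if c n then ch n (st c n) else st c n

def tr (c : ℕ → Bool) (n : ℕ) : ℕ → Bool := fun i => if i < n then c i else false

def P : Set A := {x | ∃ c n i, x = sh^[i] ((st c n).2, tr c n)}

theorem st_congr (c c' : ℕ → Bool) (n : ℕ) (h : ∀ i < n, c i = c' i) : st c n = st c' n := by
  induction n with
  | zero => rfl
  | succ n ih => simp only [st, ih fun i hi => h i (by omega), h n (by omega)]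

theorem ch_agree (n : ℕ) (s : ℕ × (ℕ → Bool)) (i : ℕ) (hi : i < (n + 1) * s.1) :
    (ch n s).2 i = s.2 i := by
  have h := (pr_spec ((n + 1) * (s.1 + 1))).1
  have h2 : i < pr ((n + 1) * (s.1 + 1)) := by nlinarith
  simp only [ch, Nat.mod_eq_of_lt h2, if_pos hi]

theorem st_basic (c : ℕ → Bool) (n : ℕ) : 0 < (st c n).1 ∧ (st c n).2 0 = true ∧
    ∀ i m, (st c n).2 (i + (st c n).1 * m) = (st c n).2 i := by
  induction n with
  | zero => simp [st]
  | succ n ih =>
    simp only [st]
    split_ifs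
    · refine ⟨(pr_spec _).2.pos, ?_, fun i m => ?_⟩
      · rw [ch_agree _ _ _ (Nat.mul_pos (by omega) ih.1)]
        exact ih.2.1
      · simp only [ch, Nat.add_mul_mod_self_left]
    · exact ih

theorem st_gap (c : ℕ → Bool) (m : ℕ) (hm : c m = true) (n : ℕ) (hn : m + 1 ≤ n) :
    ∀ i < (st c n).1, (st c n).2 i = true → ∃ j, i < j ∧ j ≤ i + (st c (m + 1)).1 ∧
      j + (m + 1) ≤ (st c n).1 ∧ ∀ t < m + 1, (st c n).2 (j + t) = false := by
  induction n, hn using Nat.le_induction with
  | base =>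
    simp only [st, hm, if_true]
    intro i hi h
    have h1 := (pr_spec ((m + 1) * ((st c m).1 + 1))).1
    simp only [ch] at hi h ⊢
    rw [Nat.mod_eq_of_lt hi] at h
    have h2 : i < (m + 1) * (st c m).1 := by
      by_contra hc
      rw [if_neg hc] at h
      exact absurd h (by simp)
    refine ⟨(m + 1) * (st c m).1, h2, by nlinarith, by nlinarith, fun t ht => ?_⟩
    rw [Nat.mod_eq_of_lt (by nlinarith), if_neg (by omega)]
  | succ n hn ih =>
    have e : st c (n + 1) = if c n then ch n (st c n) else st c n := rfl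
    rw [e]
    split_ifs
    · intro i hi h
      obtain ⟨b0, _, b2⟩ := st_basic c n
      have h1 := (pr_spec ((n + 1) * ((st c n).1 + 1))).1
      have h2 : i < (n + 1) * (st c n).1 := by
        by_contra hc
        simp only [ch] at hi h
        rw [Nat.mod_eq_of_lt hi, if_neg hc] at h
        exact absurd h (by simp)
      rw [ch_agree _ _ _ h2] at h
      have h3 := Nat.mod_add_div i (st c n).1
      have h4 : i / (st c n).1 < n + 1 := by
        rw [Nat.div_lt_iff_lt_mul b0]
        exact h2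
      rw [← h3, b2] at h
      obtain ⟨j, j1, j2, j3, j4⟩ := ih _ (Nat.mod_lt _ b0) h
      have h5 : (st c n).1 * (i / (st c n).1) + (st c n).1 ≤ (n + 1) * (st c n).1 := by nlinarith
      refine ⟨j + (st c n).1 * (i / (st c n).1), by omega, by omega, ?_, fun t ht => ?_⟩
      · simp only [ch]
        nlinarith
      · rw [ch_agree _ _ _ (by omega), add_right_comm, b2]
        exact j4 t ht
    · exact ih

theorem near (x : A) (K : ℕ) : ∀ᶠ y in 𝓝 x, ∀ l ∈ Finset.range K, y.1 l = x.1 l ∧ y.2 l = x.2 l := by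
  rw [eventually_all_finset]
  intro l _
  have h1 : Continuous fun y : A => (y.1 l, y.2 l) := by fun_prop
  have := h1.continuousAt (x := x) (isOpen_discrete {(x.1 l, x.2 l)} |>.mem_nhds rfl)
  filter_upwards [this] with y hy
  simpa using hy

theorem gap (x : A) (hx : x ∈ closure P) (m : ℕ) (hm : x.2 m = true) :
    ∃ j, ∀ t < m + 1, x.1 (j + t) = false := by
  by_cases h : ∃ i, x.1 i = true
  · obtain ⟨i, hi⟩ := h
    obtain ⟨p, hp, c, n, a, rfl⟩ := (mem_closure_iff_nhds.1 hx) _
      (near x (i + (st x.2 (m + 1)).1 + m + 2))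
    simp only [mem_ofPred_eq, sh_iter, Finset.mem_range] at hp
    have h1 : m < n := by
      by_contra hc
      have := (hp m (by omega)).2
      simp [tr, hc, hm] at this
    have h2 : ∀ l < m + 1, c l = x.2 l := fun l hl => by
      have := (hp l (by omega)).2
      simpa [tr, show l < n by omega] using this
    obtain ⟨b0, _, b2⟩ := st_basic c n
    have h3 := (hp i (by omega)).1
    have h4 := Nat.mod_add_div (i + a) (st c n).1
    rw [hi, ← h4, b2] at h3
    obtain ⟨j, j1, j2, _, j4⟩ := st_gap c m ((h2 m (by omega)).trans hm) n h1 _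
      (Nat.mod_lt _ b0) h3
    rw [st_congr c x.2 _ h2] at j2
    refine ⟨j + (st c n).1 * ((i + a) / (st c n).1) - a, fun t ht => ?_⟩
    rw [← (hp _ (by omega)).1, ← j4 t ht, ← b2 (j + t) ((i + a) / (st c n).1)]
    exact congrArg (st c n).2 (by omega)
  · push Not at h
    exact ⟨0, fun t _ => by simpa using h _⟩

theorem child (x : A) (hx : x ∈ P) : ∃ q : ℕ → A, Tendsto q atTop (𝓝 x) ∧
    ∀ m, q m ∈ P ∧ (∃ l, m ≤ l ∧ (q m).2 l = true) ∧
      ∃ p, m ≤ p ∧ p.Prime ∧ sh^[p] (q m) = q m := by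
  obtain ⟨c, n, a, rfl⟩ := hx
  set d : ℕ → ℕ → Bool := fun m => update (tr c n) (n + m) true with hd
  have e1 : ∀ m k, k ≤ m → st (d m) (n + k) = st c n := by
    intro m k
    induction k with
    | zero =>
      intro _
      refine st_congr _ _ _ fun i hi => ?_
      simp only [add_zero] at hi
      simp [hd, update_of_ne (show i ≠ n + m by omega), tr, hi]
    | succ k ih =>
      intro hk
      have e : st (d m) (n + (k + 1)) =
        if d m (n + k) then ch (n + k) (st (d m) (n + k)) else st (d m) (n + k) := rfl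
      rw [e, if_neg, ih (by omega)]
      simp [hd, update_of_ne (show n + k ≠ n + m by omega), tr]
  have e2 : ∀ m, st (d m) (n + m + 1) = ch (n + m) (st c n) := fun m => by
    have e : st (d m) (n + m + 1) =
      if d m (n + m) then ch (n + m) (st (d m) (n + m)) else st (d m) (n + m) := rfl
    rw [e, if_pos (by simp [hd]), e1 m m le_rfl]
  obtain ⟨b0, _, _⟩ := st_basic c n
  refine ⟨fun m => sh^[a] ((st (d m) (n + m + 1)).2, tr (d m) (n + m + 1)), ?_, fun m =>
    ⟨⟨_, _, _, rfl⟩, ⟨n + m, by omega, by simp [sh_iter, tr, hd]⟩, (st (d m) (n + m + 1)).1, ?_, ?_, ?_⟩⟩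
  · refine ((sh_cont.iterate a).tendsto _).comp (Tendsto.prodMk_nhds ?_ ?_)
    · refine tendsto_pi_nhds.2 fun i => tendsto_const_nhds.congr' ?_
      filter_upwards [eventually_ge_atTop i] with m hm
      rw [e2, ch_agree _ _ _ (by nlinarith)]
    · refine tendsto_pi_nhds.2 fun i => tendsto_const_nhds.congr' ?_
      filter_upwards [eventually_gt_atTop i] with m hm
      simp only [tr, hd]
      rw [if_pos (show i < n + m + 1 by omega), update_of_ne (by omega)]
      rfl
  · rw [e2]
    have := (pr_spec ((n + m + 1) * ((st c n).1 + 1))).1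
    simp only [ch]
    nlinarith
  · rw [e2]
    exact (pr_spec _).2
  · simp only [sh_iter]
    congr 1
    funext i
    have := (st_basic (d m) (n + m + 1)).2.2 (i + a) 1
    rw [← this]
    exact congrArg (st (d m) (n + m + 1)).2 (by omega)

theorem P_per (x : A) (hx : x ∈ P) : (∃ i, x.1 i = true) ∧ ∃ y ∈ P, sh y = x := by
  obtain ⟨c, n, a, rfl⟩ := hx
  obtain ⟨b0, b1, b2⟩ := st_basic c n
  constructor
  · refine ⟨(st c n).1 * a - a, ?_⟩
    simp only [sh_iter]
    rw [← b1, ← b2 0 a]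
    have : a ≤ (st c n).1 * a := Nat.le_mul_of_pos_left _ b0
    exact congrArg (st c n).2 (by omega)
  · refine ⟨sh^[a + (st c n).1 - 1] ((st c n).2, tr c n), ⟨_, _, _, rfl⟩, ?_⟩
    simp only [sh_iter, sh]
    congr 1
    funext i
    rw [← b2 (i + a) 1]
    exact congrArg (st c n).2 (by omega)

end Pool.Agent.H.MP_e6b6d5_an
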