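import Pool.Agent.H.MP_e6b6d5_an.A

set_option autoImplicit false

namespace Pool.Agent.H.MP_e6b6d5_an

open Set Filter Topology Function

abbrev XS := closure P

theorem sh_maps : MapsTo sh (closure P) (closure P) := by
  refine MapsTo.closure ?_ sh_cont
  rintro _ ⟨c, n, a, rfl⟩
  exact ⟨c, n, a + 1, (iterate_succ_apply' _ _ _).symm⟩

def T (x : XS) : XS := ⟨sh x.1, sh_maps x.2⟩

theorem T_cont : Continuous T := (sh_cont.comp continuous_subtype_val).subtype_mk _

theorem T_iter (n : ℕ) (x : XS) : (T^[n] x).1 = sh^[n] x.1 := by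
  induction n with
  | zero => rfl
  | succ n ih => rw [iterate_succ_apply', iterate_succ_apply', ← ih]; rfl

instance : CompactSpace XS := isCompact_iff_compactSpace.1 isClosed_closure.isCompact

theorem T_surj : Surjective T := by
  have h1 : IsClosed (sh '' closure P) := (isClosed_closure.isCompact.image sh_cont).isClosed
  have h2 : closure P ⊆ sh '' closure P := closure_minimal (fun x hx => by
    obtain ⟨y, hy, e⟩ := (P_per x hx).2
    exact ⟨y, subset_closure hy, e⟩) h1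
  intro x
  obtain ⟨y, hy, e⟩ := h2 x.2
  exact ⟨⟨y, hy⟩, Subtype.ext e⟩

theorem appr (U : Set XS) (hU : IsOpen U) (hne : U.Nonempty) (N : ℕ) :
    ∃ q ∈ U, q.1 ∈ P ∧ (∃ l, N ≤ l ∧ q.1.2 l = true) ∧
      ∃ p, N ≤ p ∧ p.Prime ∧ T^[p] q = q := by
  obtain ⟨W, hW, rfl⟩ := isOpen_induced_iff.1 hU
  obtain ⟨x, hx⟩ := hne
  obtain ⟨y, hyW, hy⟩ := mem_closure_iff.1 x.2 W hW hx
  obtain ⟨q, hq, h⟩ := child y hy
  obtain ⟨m, hm1, hm2⟩ := ((hq.eventually (hW.mem_nhds hyW)).and (eventually_ge_atTop N)).exists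
  obtain ⟨a1, ⟨l, l1, l2⟩, p, p1, p2, p3⟩ := h m
  refine ⟨⟨q m, subset_closure a1⟩, hm1, a1, ⟨l, by omega, l2⟩, p, by omega, p2, Subtype.ext ?_⟩
  rw [T_iter]
  exact p3

theorem orb_maps (x : XS) : MapsTo T (orbCl T x) (orbCl T x) := by
  refine MapsTo.closure ?_ T_cont
  rintro _ ⟨n, rfl⟩
  exact ⟨n + 1, iterate_succ_apply' _ _ _⟩

theorem bad (x : XS) (h1 : ∀ k, ∃ l, k ≤ l ∧ x.1.2 l = true)
    (h2 : orbCl T x ⊆ closure {u ∈ orbCl T x | IsMinimalOn T (orbCl T u)}) :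
    ∀ i, x.1.1 i = false := by
  have hZ : IsClosed {z : XS | z.1.1 = fun _ => false} := isClosed_eq (by fun_prop) continuous_const
  have h3 : orbCl T x ⊆ {z : XS | z.1.2 = x.1.2} := by
    refine closure_minimal ?_ (isClosed_eq (by fun_prop) continuous_const)
    rintro _ ⟨n, rfl⟩
    simp only [mem_ofPred_eq, T_iter, sh_iter]
  have h4 : {u ∈ orbCl T x | IsMinimalOn T (orbCl T u)} ⊆ {z : XS | z.1.1 = fun _ => false} := by
    rintro u ⟨hu, hmin⟩
    have hc : u.1.2 = x.1.2 := h3 hu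
    have hj : ∀ k, ∃ j, ∀ t < k, u.1.1 (j + t) = false := fun k => by
      obtain ⟨l, l1, l2⟩ := h1 k
      obtain ⟨j, hj⟩ := gap u.1 u.2 l (by rw [hc, l2])
      exact ⟨j, fun t ht => hj t (by omega)⟩
    choose j hj using hj
    have ht : Tendsto (fun k => (T^[j k] u).1) atTop (𝓝 (fun _ => false, u.1.2)) := by
      simp only [T_iter, sh_iter]
      refine Tendsto.prodMk_nhds (tendsto_pi_nhds.2 fun i => tendsto_const_nhds.congr' ?_)
        tendsto_const_nhds
      filter_upwards [eventually_gt_atTop i] with k hk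
      rw [add_comm, hj k i hk]
    have hz : ((fun _ => false, u.1.2) : A) ∈ closure P :=
      isClosed_closure.mem_of_tendsto ht (Eventually.of_forall fun k => (T^[j k] u).2)
    have hz2 : (⟨_, hz⟩ : XS) ∈ orbCl T u :=
      mem_closure_of_tendsto (f := fun k => T^[j k] u) (b := atTop)
        (tendsto_subtype_rng.2 ht) (Eventually.of_forall fun k => ⟨j k, rfl⟩)
    have := hmin (orbCl T u ∩ {z : XS | z.1.1 = fun _ => false}) inter_subset_left
      ⟨_, hz2, rfl⟩ (isClosed_closure.inter hZ) (fun z hz => ⟨orb_maps u hz.1, by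
        have e : z.1.1 = fun _ => false := hz.2
        show (fun i => z.1.1 (i + 1)) = _
        rw [e]⟩)
    have hu0 : u ∈ orbCl T u := subset_closure ⟨0, rfl⟩
    rw [← this] at hu0
    exact hu0.2
  have h5 : x.1.1 = fun _ => false :=
    closure_minimal h4 hZ (h2 (subset_closure ⟨0, rfl⟩))
  intro i
  rw [h5]

theorem no_omega : ¬ ∃ Ω : Set XS, IsGδ Ω ∧ Dense Ω ∧
    ∀ x ∈ Ω, orbCl T x ⊆ closure {u ∈ orbCl T x | IsMinimalOn T (orbCl T u)} := by
  rintro ⟨Ω, h1, h2, h3⟩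
  set G : ℕ → Set XS := fun k => {x | (∃ l, k ≤ l ∧ x.1.2 l = true) ∧ ∃ i, x.1.1 i = true} with hG
  have ho : ∀ k, IsOpen (G k) := fun k => by
    have e : G k = (⋃ l, ⋃ _ : k ≤ l, (fun x : XS => x.1.2 l) ⁻¹' {true}) ∩
        ⋃ i, (fun x : XS => x.1.1 i) ⁻¹' {true} := by
      ext x
      simp [hG]
    rw [e]
    exact (isOpen_iUnion fun l => isOpen_iUnion fun _ =>
      (isOpen_discrete _).preimage (by fun_prop)).inter
      (isOpen_iUnion fun i => (isOpen_discrete _).preimage (by fun_prop))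
  have hd : ∀ k, Dense (G k) := fun k => dense_iff_inter_open.2 fun U hU hne => by
    obtain ⟨q, q1, q2, q3, _⟩ := appr U hU hne k
    exact ⟨q, q1, q3, (P_per _ q2).1⟩
  have hD := h2.inter_of_Gδ h1 (IsGδ.iInter_of_isOpen ho) (dense_iInter_of_isOpen ho hd)
  haveI : Nonempty XS := ⟨⟨_, subset_closure ⟨fun _ => false, 0, 0, rfl⟩⟩⟩
  obtain ⟨x, hx1, hx2⟩ := hD.nonempty
  rw [mem_iInter] at hx2
  obtain ⟨i, hi⟩ := (hx2 0).2
  rw [bad x (fun k => (hx2 k).1) (h3 x hx1) i] at hi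
  exact absurd hi (by simp)

theorem main : ∃ (X : Type) (_ : MetricSpace X) (_ : CompactSpace X) (T : X → X),
    Nonempty X ∧ Continuous T ∧ Surjective T ∧
    (∀ (Y : Type) [MetricSpace Y] [CompactSpace Y] (S : Y → Y), Continuous S → Surjective S →
      IsMinimalOn S univ → ∀ J : Set (X × Y), J.Nonempty → IsClosed J →
        MapsTo (Prod.map T S) J J → Prod.fst '' J = univ → Prod.snd '' J = univ → J = univ) ∧
    ¬ ∃ Ω : Set X, IsGδ Ω ∧ Dense Ω ∧
      ∀ x ∈ Ω, orbCl T x ⊆ closure {u ∈ orbCl T x | IsMinimalOn T (orbCl T u)} := by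
  letI : MetricSpace XS := TopologicalSpace.metrizableSpaceMetric XS
  refine ⟨XS, inferInstance, inferInstance, T,
    ⟨⟨_, subset_closure ⟨fun _ => false, 0, 0, rfl⟩⟩⟩, T_cont, T_surj, ?_, no_omega⟩
  intro Y _ _ S hS _ hmin J _ hJ hinv h1 _
  refine disj T S hS hmin (fun U hU hne N => ?_) J hJ hinv h1
  obtain ⟨q, q1, _, _, h⟩ := appr U hU hne N
  exact ⟨q, q1, h⟩

end Pool.Agent.H.MP_e6b6d5_an
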